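import Mathlib

set_option autoImplicit false
set_option maxHeartbeats 400000

open Polynomial

namespace Pool.Agent.Results.MP_2eeab0_an.Translate

variable {K : Type} [Field K]

/-- the affine map `a z + b` -/
noncomputable def aff (a b : K) : K[X] := C a * X + C b

/-- `Q` is the conjugate of `P` by the invertible affine map `a z + b` -/
def Conj (P Q : K[X]) (a b : K) : Prop := a ≠ 0 ∧ P.comp (aff a b) = (aff a b).comp Q

/-- `z ↦ u z` lies in the symmetry group of the monic centered polynomial `P` -/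
def SigMC (P : K[X]) (u : K) : Prop :=
  (∃ (r m : ℕ) (P0 : K[X]), 1 ≤ m ∧ P = X ^ r * P0.comp (X ^ m) ∧ P0.eval 0 ≠ 0 ∧
    (¬∃ (l : ℕ) (Q : K[X]), 2 ≤ l ∧ P0 = Q.comp (X ^ l)) ∧ P0 ≠ 1 ∧ u ^ m = 1) ∨
  ((∃ d : ℕ, P = X ^ d) ∧ ∃ k : ℕ, 1 ≤ k ∧ u ^ k = 1)

/-- `g` lies in the symmetry group of `P` -/
def InSigma (P g : K[X]) : Prop :=
  ∃ (a b u : K) (Q : K[X]), Conj P Q a b ∧ Q.Monic ∧ Q.coeff (Q.natDegree - 1) = 0 ∧
    SigMC Q u ∧ Conj g (C u * X) a b

/-- conjugate to a monomial or to plus or minus a Chebyshev polynomial -/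
def Integrable (P : K[X]) : Prop :=
  ∃ a b : K, Conj P (X ^ P.natDegree) a b ∨ Conj P (dickson 1 1 P.natDegree) a b ∨
    Conj P (-dickson 1 1 P.natDegree) a b

/-- the curve cut out by a polynomial in two variables -/
def Curve (F : K[X][X]) : Set (K × K) := {p | F.evalEval p.1 p.2 = 0}

/-- intertwined polynomials -/
def Intertwined (P Q : K[X]) : Prop :=
  P.natDegree = Q.natDegree ∧ ∃ F : K[X][X], Irreducible F ∧
    (fun p : K × K => (P.eval p.1, Q.eval p.2)) '' Curve F = Curve F ∧
    Prod.fst '' Curve F = Set.univ ∧ Prod.snd '' Curve F = Set.univ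

theorem d3 : (dickson 1 1 3 : K[X]) = X ^ 3 - 3 * X := by
  simp [dickson]; ring

theorem result (K : Type) [Field K] [IsAlgClosed K] [CharZero K] :
    ∃ (P : K[X]) (a b : K), 2 ≤ P.natDegree ∧ ¬Integrable P ∧ a ≠ 0 ∧ ¬InSigma P (aff a b) ∧
      Intertwined (P.comp (aff a b)) P := by
  have hd : (X ^ 3 + X + 1 : K[X]).natDegree = 3 := by compute_degree!
  have key : ∀ (a b s t : K), a ≠ 0 →
      (∀ z : K, (a * z + b) ^ 3 + (a * z + b) + 1 = a * (s * z ^ 3 + t * z) + b) → False := by
    intro a b s t ha h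
    have h0 := h 0; have h1 := h 1; have h2 := h (-1)
    have : a ^ 2 * b = 0 := by linear_combination (h1 + h2 - 2 * h0) / 6
    have hb : b = 0 := by simpa [ha] using this
    subst hb; simp at h0
  refine ⟨X ^ 3 + X + 1, 1, -2, by omega, ?_, one_ne_zero, ?_, ?_, X - C (C 2 - X), irreducible_X_sub_C _,
    ?_, ?_, ?_⟩
  · rintro ⟨a, b, h⟩
    rw [hd, d3] at h
    rcases h with ⟨ha, h⟩ | ⟨ha, h⟩ | ⟨ha, h⟩
    · exact key a b 1 0 ha fun z => by simpa [aff, eval_comp] using congrArg (eval z) h
    · exact key a b 1 (-3) ha fun z => by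
        have := congrArg (eval z) h
        simp [aff, eval_comp] at this; linear_combination this
    · exact key a b (-1) 3 ha fun z => by
        have := congrArg (eval z) h
        simp [aff, eval_comp] at this; linear_combination this
  · rintro ⟨a, b, u, Q, -, -, -, -, -, h⟩
    have := congrArg (eval 0) h
    simp [aff, eval_comp] at this
  · rw [natDegree_comp, aff, natDegree_linear one_ne_zero, mul_one]
  · ext ⟨z, w⟩
    simp only [Curve, Set.mem_image, Set.mem_setOf_eq, Prod.exists, Prod.mk.injEq]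
    simp [aff, eval_comp, evalEval]
    constructor
    · rintro ⟨x, y, h, rfl, rfl⟩
      obtain rfl : y = 2 - x := by linear_combination h
      ring
    · intro h
      obtain ⟨y, hy⟩ := IsAlgClosed.exists_root (X ^ 3 + X + 1 - C w : K[X]) (by
        rw [degree_sub_C (by rw [degree_eq_natDegree (by rintro h; simp [h] at hd), hd]; norm_num),
          degree_eq_natDegree (by rintro h; simp [h] at hd), hd]; norm_num)
      simp at hy
      exact ⟨2 - y, y, by ring, by linear_combination -hy - h, by linear_combination hy⟩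
  · refine Set.eq_univ_of_forall fun z => ⟨(z, 2 - z), ?_, rfl⟩
    simp [Curve, evalEval]
  · refine Set.eq_univ_of_forall fun z => ⟨(2 - z, z), ?_, rfl⟩
    simp [Curve, evalEval]

end Pool.Agent.Results.MP_2eeab0_an.Translate
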